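import Pool.Agent.Helper48.LD.Main

/-!
# Local dimension of disconnected posets: `f(d) = d + 2` for all `d ≥ 5`

`attained d` is the set of all local dimensions of disconnected finite posets each of whose
components has local dimension at most `d`. Its maximum is the number `f(d)` of the problem. We
show that this maximum is `d + 2` for every `d ≥ 5`.

The extremal posets are disjoint unions of two zone posets. The first one has 11 zones (grids
`[N]^d` in the product order), placed along the blocks of the biplane on 11 points (with
private labels added when `d > 5`); the second one consists of many copies of a grid `[N']^(d-2)`
with private chains above it, which forces every local realizer to spend `d - 2` private partial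
linear extensions on some point of each copy.
-/

namespace Pool.Agent.Results.MP_33f591_co.LdimDisconnected

open Pool.Agent.Helper48.LD

/-- For every `d ≥ 5`, the maximum local dimension of a disconnected finite poset each of whose
components has local dimension at most `d` is `d + 2`. -/
theorem result (d : ℕ) (hd : 5 ≤ d) : IsGreatest (attained d) (d + 2) :=
  isGreatest_attained hd

end Pool.Agent.Results.MP_33f591_co.LdimDisconnected
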