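import Pool.Agent.Helper48.LD.Main

/-!
# Local dimension of disconnected posets: the case `d = 4`

`attained 4` is the set of all local dimensions of disconnected finite posets each of whose
components has local dimension at most `4`. Its maximum `f(4)` is `5` or `6`; in particular it
is not `4`.
-/

namespace Pool.Agent.Results.MP_33f591_co.LdimFour

open Pool.Agent.Helper48.LD

/-- The maximum local dimension of a disconnected finite poset each of whose components has local
dimension at most `4` is `5` or `6`. -/
theorem result : IsGreatest (attained 4) 5 ∨ IsGreatest (attained 4) 6 :=
  isGreatest_attained_or (by norm_num)

end Pool.Agent.Results.MP_33f591_co.LdimFour
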